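import Pool.Agent.helper65.GD.SpecF

set_option autoImplicit false

namespace Pool.Agent.GD

open Finset Metric Filter Topology

/-- `β` without its constant term -/
def XEM_b (β : ℕ → ℂ) (m : ℕ) : ℂ := if m = 0 then 0 else β m

theorem XEM_cv (β a : ℕ → ℂ) (n : ℕ) :
    cv (XEM_b β) a n = ∑ m ∈ range n, β (n - m) * a m := by
  unfold cv
  rw [Finset.sum_range_succ, Nat.sub_self]
  have h0 : XEM_b β 0 = 0 := by simp [XEM_b]
  rw [h0, zero_mul, add_zero]
  refine Finset.sum_congr rfl fun m hm => ?_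
  rw [mem_range] at hm
  unfold XEM_b
  rw [if_neg (by omega)]

theorem XEM_coeff (a : ℕ → ℂ) (n : ℕ) :
    PowerSeries.coeff n (PowerSeries.X * PowerSeries.derivative ℂ (PowerSeries.mk a)) = n * a n := by
  cases n with
  | zero => simp
  | succ n =>
    rw [PowerSeries.coeff_succ_X_mul, PowerSeries.coeff_derivative, PowerSeries.coeff_mk]
    push_cast
    ring

theorem XEM_rec {s : ℂ} {β a : ℕ → ℂ} (h : ∀ k : ℕ, (k : ℂ) * a k = s * ∑ m ∈ range k, β (k - m) * a m) :
    PowerSeries.X * PowerSeries.derivative ℂ (PowerSeries.mk a) =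
      PowerSeries.C s * (PowerSeries.mk (XEM_b β) * PowerSeries.mk a) := by
  ext n
  rw [XEM_coeff, PowerSeries.coeff_C_mul, ← cv_eq, XEM_cv, h n]

theorem XEM_mul (s t : ℂ) (β : ℕ → ℂ) : Rec (s + t) β (cv (ex s β) (ex t β)) := by
  refine ⟨?_, fun k => ?_⟩
  · unfold cv
    rw [Finset.sum_range_one, Nat.sub_self, ex_zero, ex_zero, mul_one]
  · have h1 := XEM_rec (ex_rec s β).2
    have h2 := XEM_rec (ex_rec t β).2
    have h3 : PowerSeries.X * PowerSeries.derivative ℂ (PowerSeries.mk (cv (ex s β) (ex t β))) =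
        PowerSeries.C (s + t) * (PowerSeries.mk (XEM_b β) * PowerSeries.mk (cv (ex s β) (ex t β))) := by
      rw [cv_mk, Derivation.leibniz]
      rw [smul_eq_mul, smul_eq_mul, mul_add]
      rw [show PowerSeries.X * (PowerSeries.mk (ex s β) * PowerSeries.derivative ℂ (PowerSeries.mk (ex t β))) =
        PowerSeries.mk (ex s β) * (PowerSeries.X * PowerSeries.derivative ℂ (PowerSeries.mk (ex t β))) by ring,
        show PowerSeries.X * (PowerSeries.mk (ex t β) * PowerSeries.derivative ℂ (PowerSeries.mk (ex s β))) =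
        PowerSeries.mk (ex t β) * (PowerSeries.X * PowerSeries.derivative ℂ (PowerSeries.mk (ex s β))) by ring,
        h1, h2, map_add]
      ring
    have h4 := congrArg (PowerSeries.coeff k) h3
    rw [XEM_coeff, PowerSeries.coeff_C_mul, ← cv_eq, XEM_cv] at h4
    exact h4

theorem XEM : XEM_stmt := by
  refine ⟨fun s t β n => congrFun (ex_uni _ _ _ (XEM_mul s t β)) n, fun β n => ?_⟩
  have h : Rec 0 β dl := by
    refine ⟨by simp [dl], fun k => ?_⟩
    rw [zero_mul]
    unfold dl
    by_cases hk : k = 0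
    · rw [hk]; simp
    · rw [if_neg hk, mul_zero]
  exact (congrFun (ex_uni _ _ _ h) n).symm

end Pool.Agent.GD
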