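import Pool.Agent.helper65.GD.SpecF

set_option autoImplicit false

namespace Pool.Agent.GD

open Finset Metric Filter Topology

theorem XFB_EE {g e : ℕ → ℂ} {D : ℝ} (hD : Dat g e D) (i : ℕ) : ‖e i‖ ≤ EE i := by
  unfold EE
  split_ifs with h0 h1 h2
  · rw [h0, hD.e0, norm_one]
  · rw [h1]
    linarith [hD.e1, hD.D0]
  · rw [h2]
    exact hD.e2
  · exact hD.e3 i

/-- the first part, reindexed -/
theorem XFB_first (g e h : ℕ → ℂ) (p n j : ℕ) (hj : 1 ≤ j) (hjp : j ≤ p + 1) (hn : p + 1 < n)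
    (hh : ∀ k, k ≤ p → h k = if k + 1 < j then 0 else j * e (k + 1 - j)) :
    ∑ k ∈ range (p + 1), g (n - 1 - k) * h k =
      (j : ℂ) * ∑ i ∈ range (p + 1 - j + 1), g ((n - p - 1) + (p + 1 - j) - i) * e i := by
  have h1 : p + 1 = (j - 1) + (p + 1 - j + 1) := by omega
  rw [h1, Finset.sum_range_add, Finset.mul_sum]
  have h2 : ∑ k ∈ range (j - 1), g (n - 1 - k) * h k = 0 := by
    refine Finset.sum_eq_zero fun k hk => ?_
    rw [mem_range] at hk
    rw [hh k (by omega), if_pos (by omega), mul_zero]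
  rw [h2, zero_add]
  rw [← h1]
  refine Finset.sum_congr rfl fun i hi => ?_
  rw [mem_range] at hi
  rw [hh (j - 1 + i) (by omega), if_neg (by omega)]
  rw [show j - 1 + i + 1 - j = i by omega,
    show n - 1 - (j - 1 + i) = n - p - 1 + (p + 1 - j) - i by omega]
  ring

theorem XFB (h1 : XNI_stmt) (h2 : XN3_stmt) : XFB_stmt := by
  intro p n j g e h D hD hj hjp hn hh hm
  set A : ℕ := n - p - 1 with hA
  set r : ℕ := p + 1 - j with hr
  have hA1 : 1 ≤ A := by omega
  have hj0 : (0 : ℝ) ≤ (j : ℝ) := Nat.cast_nonneg j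
  -- the saving
  set s : ℝ := if j + 1 ≤ p then (A : ℝ) * ((A : ℝ) + 1) / 2 * D * (((r : ℝ) ^ 2 + 4 * r - 8) / 3) else 0
    with hs
  -- first part
  have hP : ‖∑ i ∈ range (r + 1), g (A + r - i) * e i‖ ≤ TT r A + s := by
    by_cases hjp1 : j + 1 ≤ p
    · rw [hs, if_pos hjp1]
      have hr2 : 2 ≤ r := by omega
      have := hD.p2 A r hA1 hr2
      unfold TT
      rw [if_neg (by omega), if_neg (by omega)]
      linarith
    · rw [hs, if_neg hjp1, add_zero]
      have hr01 : r = 0 ∨ r = 1 := by omega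
      rcases hr01 with h0 | h0
      · rw [h0]
        unfold TT
        rw [if_pos rfl, zero_add, Finset.sum_range_one, hD.e0, mul_one]
        simpa using hD.gb A
      · rw [h0]
        unfold TT
        rw [if_neg (by omega), if_pos rfl]
        exact hD.p1 A hA1
  have hfirst : ‖∑ k ∈ range (p + 1), g (n - 1 - k) * h k‖ ≤ j * (TT r A + s) := by
    rw [XFB_first g e h p n j hj hjp hn hh, norm_mul, Complex.norm_natCast]
    exact mul_le_mul_of_nonneg_left hP hj0
  -- the bound for `h`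
  set E : ℕ → ℝ := fun k => if k + 1 < j then 0 else EE (k + 1 - j) with hE
  have hhk : ∀ k, k ≤ p → ‖h k‖ ≤ j * (E k - if k = j then D else 0) := by
    intro k hk
    rw [hh k hk]
    simp only [hE]
    by_cases hkj : k + 1 < j
    · rw [if_pos hkj, if_pos hkj, if_neg (by omega), norm_zero, sub_zero, mul_zero]
    · rw [if_neg hkj, if_neg hkj, norm_mul, Complex.norm_natCast]
      refine mul_le_mul_of_nonneg_left ?_ hj0
      by_cases hkj2 : k = j
      · rw [if_pos hkj2, hkj2, show j + 1 - j = 1 by omega]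
        have h3 := hD.e1
        unfold EE
        rw [if_neg (by omega), if_pos rfl]
        exact h3
      · rw [if_neg hkj2, sub_zero]
        exact XFB_EE hD _
  have hAA : ∀ m k, p < m → k ∈ Icc 1 p → 0 ≤ AA p m k := by
    intro m k hm' hk
    rw [mem_Icc] at hk
    exact (nue_holds p m k hk.1 hk.2 hm').2.1
  have hhm : ∀ m, p < m → ‖h m‖ ≤ j * (∑ k ∈ Icc 1 p, AA p m k * E k -
      if j ≤ p then D * AA p m j else 0) := by
    intro m hm'
    refine (hm m hm').trans ?_
    have h3 : ∑ k ∈ Icc 1 p, AA p m k * ‖h k‖ ≤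
        ∑ k ∈ Icc 1 p, AA p m k * (j * (E k - if k = j then D else 0)) := by
      refine Finset.sum_le_sum fun k hk => ?_
      exact mul_le_mul_of_nonneg_left (hhk k (mem_Icc.1 hk).2) (hAA m k hm' hk)
    refine h3.trans (le_of_eq ?_)
    have h4 : ∑ k ∈ Icc 1 p, AA p m k * (j * (E k - if k = j then D else 0)) =
        j * (∑ k ∈ Icc 1 p, AA p m k * E k - ∑ k ∈ Icc 1 p, if k = j then D * AA p m j else 0) := by
      rw [← Finset.sum_sub_distrib, Finset.mul_sum]
      refine Finset.sum_congr rfl fun k _ => ?_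
      by_cases hkj : k = j
      · rw [if_pos hkj, if_pos hkj, hkj]; ring
      · rw [if_neg hkj, if_neg hkj]; ring
    rw [h4, Finset.sum_ite_eq' (Icc 1 p) j (fun _ => D * AA p m j)]
    congr 2
    by_cases hjp2 : j ≤ p
    · rw [if_pos (mem_Icc.2 ⟨hj, hjp2⟩), if_pos hjp2]
    · rw [if_neg (fun hc => hjp2 (mem_Icc.1 hc).2), if_neg hjp2]
  -- second part
  have hgm : ∀ m ∈ Ioo p n, ‖g (n - 1 - m)‖ ≤ (n : ℝ) - m := by
    intro m hm'
    rw [mem_Ioo] at hm'
    have h3 := hD.gb (n - 1 - m)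
    have h4 : ((n - 1 - m : ℕ) : ℝ) + 1 = (n : ℝ) - m := by
      have h5 : n = (n - 1 - m) + 1 + m := by omega
      have h6 : (n : ℝ) = ((n - 1 - m : ℕ) : ℝ) + 1 + m := by exact_mod_cast h5
      linarith
    rw [← h4]
    exact h3
  have hsecond : ‖∑ m ∈ Ioo p n, g (n - 1 - m) * h m‖ ≤
      j * (∑ m ∈ Ioo p n, ((n : ℝ) - m) * ∑ k ∈ Icc 1 p, AA p m k * E k - s) := by
    have h3 : ‖∑ m ∈ Ioo p n, g (n - 1 - m) * h m‖ ≤
        ∑ m ∈ Ioo p n, ((n : ℝ) - m) * (j * (∑ k ∈ Icc 1 p, AA p m k * E k -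
      if j ≤ p then D * AA p m j else 0)) := by
      refine (norm_sum_le _ _).trans (Finset.sum_le_sum fun m hm' => ?_)
      rw [norm_mul]
      have h4 := hgm m hm'
      exact mul_le_mul h4 (hhm m (mem_Ioo.1 hm').1) (norm_nonneg _) ((norm_nonneg _).trans h4)
    have h5 : ∑ m ∈ Ioo p n, ((n : ℝ) - m) * (j * (∑ k ∈ Icc 1 p, AA p m k * E k -
        if j ≤ p then D * AA p m j else 0)) =
        j * (∑ m ∈ Ioo p n, ((n : ℝ) - m) * ∑ k ∈ Icc 1 p, AA p m k * E k -
          ∑ m ∈ Ioo p n, ((n : ℝ) - m) * (if j ≤ p then D * AA p m j else 0)) := by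
      rw [← Finset.sum_sub_distrib, Finset.mul_sum]
      refine Finset.sum_congr rfl fun m _ => ?_
      ring
    rw [h5] at h3
    refine h3.trans (mul_le_mul_of_nonneg_left ?_ hj0)
    refine sub_le_sub_left ?_ _
    by_cases hjp1 : j + 1 ≤ p
    · rw [hs, if_pos hjp1]
      have h6 := h2 p n j hj hjp1 hn
      have h7 : ∑ m ∈ Ioo p n, ((n : ℝ) - m) * (if j ≤ p then D * AA p m j else 0) =
          D * ∑ m ∈ Ioo p n, ((n : ℝ) - m) * AA p m j := by
        rw [Finset.mul_sum]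
        refine Finset.sum_congr rfl fun m _ => ?_
        rw [if_pos (by omega)]
        ring
      rw [h7]
      have h8 := mul_le_mul_of_nonneg_left h6 hD.D0
      refine le_trans (le_of_eq ?_) h8
      rw [← hA, ← hr]
      ring
    · rw [hs, if_neg hjp1]
      refine Finset.sum_nonneg fun m hm' => ?_
      have h9 := (norm_nonneg _).trans (hgm m hm')
      refine mul_nonneg h9 ?_
      by_cases hjp2 : j ≤ p
      · rw [if_pos hjp2]
        exact mul_nonneg hD.D0 (hAA m j (mem_Ioo.1 hm').1 (mem_Icc.2 ⟨hj, hjp2⟩))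
      · rw [if_neg hjp2]
  -- together
  have hsplit : gs g h n = ∑ k ∈ range (p + 1), g (n - 1 - k) * h k +
      ∑ m ∈ Ioo p n, g (n - 1 - m) * h m := by
    unfold gs
    rw [← Finset.sum_range_add_sum_Ico _ (show p + 1 ≤ n by omega)]
    rfl
  rw [hsplit]
  refine (norm_add_le _ _).trans ((add_le_add hfirst hsecond).trans (le_of_eq ?_))
  rw [← h1 p n j hj hjp hn]
  ring

end Pool.Agent.GD
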