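import Pool.Agent.helper65.GD.SpecF

set_option autoImplicit false

namespace Pool.Agent.GD

open Finset Metric Filter Topology

theorem XLB : XLB_stmt := by
  intro N w x m h
  obtain ⟨h0, h1, h2⟩ := h
  set c : ℂ := mom w x 1 with hc
  have hsum : mom w x (m + 1) - 2 * c * mom w x m = ∑ l, (w l : ℂ) * ((x l - 2 * c) * x l ^ m) := by
    unfold mom
    rw [Finset.mul_sum, ← Finset.sum_sub_distrib]
    refine Finset.sum_congr rfl fun l _ => ?_
    ring
  rw [hsum]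
  have h3 : ‖∑ l, (w l : ℂ) * ((x l - 2 * c) * x l ^ m)‖ ≤ ∑ l, w l * ((1 + ‖x l - 2 * c‖ ^ 2) / 2) := by
    refine (norm_sum_le _ _).trans (Finset.sum_le_sum fun l _ => ?_)
    rw [norm_mul, norm_mul, norm_pow, h2 l, one_pow, mul_one, Complex.norm_real, Real.norm_eq_abs,
      abs_of_nonneg (h0 l)]
    refine mul_le_mul_of_nonneg_left ?_ (h0 l)
    nlinarith [sq_nonneg (‖x l - 2 * c‖ - 1)]
  refine h3.trans (le_of_eq ?_)
  have h4 : ∀ l, ‖x l - 2 * c‖ ^ 2 = 1 - 4 * (x l * (starRingEnd ℂ) c).re + 4 * ‖c‖ ^ 2 := by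
    intro l
    have e1 : ‖x l‖ ^ 2 = 1 := by rw [h2 l, one_pow]
    rw [← Complex.normSq_eq_norm_sq] at e1 ⊢
    rw [← Complex.normSq_eq_norm_sq]
    simp only [Complex.normSq_apply, Complex.sub_re, Complex.sub_im, Complex.mul_re, Complex.mul_im,
      Complex.conj_re, Complex.conj_im, Complex.re_ofNat, Complex.im_ofNat] at e1 ⊢
    nlinarith
  have h5 : ∑ l, w l * (x l * (starRingEnd ℂ) c).re = ‖c‖ ^ 2 := by
    have e2 : (c * (starRingEnd ℂ) c).re = ‖c‖ ^ 2 := by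
      rw [Complex.mul_conj, Complex.ofReal_re, Complex.normSq_eq_norm_sq]
    rw [← e2]
    conv_rhs => rw [hc]
    unfold mom
    rw [Finset.sum_mul, Complex.re_sum]
    refine Finset.sum_congr rfl fun l _ => ?_
    rw [pow_one, mul_assoc, Complex.re_ofReal_mul]
    rfl
  have h6 : ∀ l, w l * ((1 + ‖x l - 2 * c‖ ^ 2) / 2) =
      w l * (1 + 2 * ‖c‖ ^ 2) - 2 * (w l * (x l * (starRingEnd ℂ) c).re) := by
    intro l
    rw [h4 l]
    ring
  rw [Finset.sum_congr rfl fun l _ => h6 l, Finset.sum_sub_distrib, ← Finset.sum_mul, h1,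
    ← Finset.mul_sum, h5]
  ring

end Pool.Agent.GD
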